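import Pool.Agent.LongJames.Main

set_option autoImplicit false

/-!
There is an Asplund space such that for no equivalent norm the dual has a countably 1-norming
Markushevich basis.
-/

namespace Pool.Agent.Results.MP_526336_an.DualNoNormingMBasis

open Pool.Agent.LongJames

/-- There is a real Asplund Banach space `X` such that for every normed space `Y` isomorphic to
`X`, in particular for `X` with any equivalent norm, the dual of `Y` has no countably 1-norming
Markushevich basis. -/
theorem result : ∃ (X : Type) (_ : NormedAddCommGroup X) (_ : NormedSpace ℝ X),
    CompleteSpace X ∧ IsAsplund X ∧ ¬ HasMBasisRenorming X :=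
  ⟨XJ, inferInstance, inferInstance, complete_XJ, asplund_XJ, no_mbasis_XJ⟩

end Pool.Agent.Results.MP_526336_an.DualNoNormingMBasis
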